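import Pool.Agent.H.MP_3c4aa6_nt.D

namespace Pool.Agent.Results.MP_3c4aa6_nt.Yes

open Filter MeasureTheory

/-- The Weyl sum `S_d(x; N)`; the coordinate `j : Fin d` is the coefficient of `n ^ (j + 1)`. -/
noncomputable def weylSum (d : ℕ) (x : EuclideanSpace ℝ (Fin d)) (N : ℕ) : ℂ :=
  ∑ n ∈ Finset.Icc 1 N, Complex.exp
    (2 * Real.pi * Complex.I * ((∑ j : Fin d, x j * (n : ℝ) ^ ((j : ℕ) + 1) : ℝ) : ℂ))

/-- The growth exponent `limsup log |S_d(x; N)| / log N`. -/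
noncomputable def sigma (d : ℕ) (x : EuclideanSpace ℝ (Fin d)) : ℝ :=
  limsup (fun N : ℕ => Real.log ‖weylSum d x N‖ / Real.log N) atTop

/-- The level set of the growth exponent in `[0,1)^d`. -/
def Omega (d : ℕ) (α : ℝ) : Set (EuclideanSpace ℝ (Fin d)) :=
  {x | (∀ j, x j ∈ Set.Ico (0 : ℝ) 1) ∧ sigma d x = α}

theorem result (d : ℕ) (hd : 2 ≤ d) :
    (∀ α ∈ Set.Ico (3 / 4 : ℝ) 1, 0 < dimH (Omega d α)) ∧
    ∃ A : Set ℝ, A ⊆ Set.Icc 0 1 ∧ MeasurableSet A ∧ 0 < volume A ∧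
      ∀ α ∈ A, 0 < dimH (Omega d α) := by
  have key : ∀ α ∈ Set.Ico (3 / 4 : ℝ) 1, 0 < dimH (Omega d α) := by
    intro α hα
    let i : Fin d := ⟨1, by omega⟩
    have hL : LipschitzWith 1 (fun x : EuclideanSpace ℝ (Fin d) => x i) := by
      refine LipschitzWith.of_dist_le_mul fun x y => ?_
      simpa using PiLp.dist_apply_le x y i
    refine lt_of_lt_of_le (Pool.Agent.H.MP_3c4aa6_nt.main α hα.1 hα.2)
      (le_trans (dimH_mono ?_) (hL.dimH_image_le (Omega d α)))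
    rintro θ ⟨hθ, hs⟩
    refine ⟨EuclideanSpace.single i θ, ⟨fun j => ?_, ?_⟩, by simp⟩
    · by_cases hj : j = i
      · subst hj; simpa using hθ
      · simp [hj]
    · have hw : ∀ N, weylSum d (EuclideanSpace.single i θ) N = Pool.Agent.H.MP_3c4aa6_nt.W θ N := by
        intro N
        unfold weylSum Pool.Agent.H.MP_3c4aa6_nt.W Pool.Agent.H.MP_3c4aa6_nt.e
        rw [Finset.range_eq_Ico, Finset.sum_Ico_add' (fun n : ℕ => Complex.exp
          (2 * Real.pi * Complex.I * ((θ * (n : ℝ) ^ 2 : ℝ) : ℂ))) 0 N 1 |>.symm.trans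
          (Finset.sum_congr rfl fun n _ => by push_cast; rfl) |>.symm]
        refine Finset.sum_congr (by ext n; simp) fun n _ => ?_
        congr 3
        rw [Finset.sum_eq_single i]
        · simp [i]
        · intro j _ hj; simp [hj]
        · simp
      unfold sigma
      simp_rw [hw]
      exact hs
  refine ⟨key, Set.Ico (3 / 4) 1, fun x hx => ⟨by linarith [hx.1], hx.2.le⟩,
    measurableSet_Ico, ?_, key⟩
  rw [Real.volume_Ico]
  norm_num

end Pool.Agent.Results.MP_3c4aa6_nt.Yes
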